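import Pool.Agent.J6H7.SM.Defs
import Pool.Agent.J6H7.SC.Count

/-!
# Counting the inputs in the outer layers
-/

set_option autoImplicit false

namespace Pool.Agent.J6H7.SM

open Finset Pool.Agent.J6H7.SC

variable {N : ℕ}

/-- flip the bits in `B` -/
def flipB (B : Finset (Fin N)) (x : Fin N → Bool) : Fin N → Bool :=
  fun i => if i ∈ B then !(x i) else x i

theorem flipB_flipB (B : Finset (Fin N)) (x : Fin N → Bool) : flipB B (flipB B x) = x := by
  funext i
  unfold flipB
  by_cases h : i ∈ B <;> simp [h]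

theorem flipB_of_mem {B : Finset (Fin N)} {i : Fin N} (h : i ∈ B) (x : Fin N → Bool) :
    flipB B x i = !(x i) := if_pos h

theorem flipB_of_notMem {B : Finset (Fin N)} {i : Fin N} (h : i ∉ B) (x : Fin N → Bool) :
    flipB B x i = x i := if_neg h

theorem ones_flipB {B : Finset (Fin N)} {x : Fin N → Bool} (h : ∀ i ∈ B, x i = false) :
    ones (flipB B x) = ones x + B.card := by
  classical
  unfold ones
  rw [← Finset.card_union_of_disjoint]
  · congr 1
    ext i
    simp only [Finset.mem_filter, Finset.mem_univ, true_and, Finset.mem_union]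
    by_cases hi : i ∈ B
    · simp [hi, flipB_of_mem hi, h i hi]
    · simp [hi, flipB_of_notMem hi]
  · rw [Finset.disjoint_left]
    intro i hi hiB
    rw [Finset.mem_filter, h i hiB] at hi
    exact absurd hi.2 (by simp)

/-- the good inputs: constant on the block and in the middle before and after the flip -/
def Gd (k : ℕ) (B : Finset (Fin N)) (x : Fin N → Bool) : Prop :=
  ((∀ i ∈ B, x i = false) ∨ ∀ i ∈ B, x i = true) ∧ Middle k x ∧ Middle k (flipB B x)

theorem gd_flip {k : ℕ} {B : Finset (Fin N)} {x : Fin N → Bool} (h : Gd k B x) :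
    Gd k B (flipB B x) := by
  refine ⟨?_, h.2.2, by rw [flipB_flipB]; exact h.2.1⟩
  rcases h.1 with h1 | h1
  · exact Or.inr fun i hi => by rw [flipB_of_mem hi, h1 i hi]; rfl
  · exact Or.inl fun i hi => by rw [flipB_of_mem hi, h1 i hi]; rfl

/-- the numbers of ones of an input which is constant on a block and of the flipped input -/
theorem ones_gd {k : ℕ} {B : Finset (Fin N)} {x : Fin N → Bool} (h : Gd k B x) :
    ones (flipB B x) = ones x + B.card ∨ ones x = ones (flipB B x) + B.card := by
  rcases h.1 with h1 | h1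
  · exact Or.inl (ones_flipB h1)
  · right
    have h2 : ∀ i ∈ B, flipB B x i = false := fun i hi => by rw [flipB_of_mem hi, h1 i hi]; rfl
    have h3 := ones_flipB h2
    rwa [flipB_flipB] at h3

open Classical in
/-- the inputs outside the middle layers -/
theorem card_outer {k : ℕ} (hk : 40 ≤ k) :
    ((univ.filter fun x : Fin N → Bool => ¬ Middle k x).card : ℝ) ≤
      2 * (4 ^ (N / 10) * (5 / 4) ^ N) := by
  have hsub : (univ.filter fun x : Fin N → Bool => ¬ Middle k x) ⊆
      (univ.filter fun x : Fin N → Bool => cb true x ≤ N / 10) ∪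
      (univ.filter fun x : Fin N → Bool => cb false x ≤ N / 10) := by
    intro x hx
    rw [Finset.mem_filter] at hx
    rw [Finset.mem_union, Finset.mem_filter, Finset.mem_filter]
    by_contra hcon
    rw [not_or] at hcon
    obtain ⟨h1, h2⟩ := hcon
    have h1' : N / 10 < cb true x := by
      by_contra h
      exact h1 ⟨Finset.mem_univ _, not_lt.1 h⟩
    have h2' : N / 10 < cb false x := by
      by_contra h
      exact h2 ⟨Finset.mem_univ _, not_lt.1 h⟩
    have key : ∀ c, N / 10 < c → 4 * N ≤ k * c := by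
      intro c hc
      refine le_trans ?_ (Nat.mul_le_mul_right c hk)
      omega
    exact hx.2 ⟨key _ h1', key _ h2'⟩
  refine (Nat.cast_le.2 ((Finset.card_le_card hsub).trans (Finset.card_union_le _ _))).trans ?_
  rw [Nat.cast_add, two_mul]
  exact add_le_add (card_few true _) (card_few false _)

open Classical in
theorem card_const (B : Finset (Fin N)) (b : Bool) :
    (univ.filter fun x : Fin N → Bool => ∀ i ∈ B, x i = b).card = 2 ^ (N - B.card) := by
  have h1 : Fintype.card ({i // i ∉ B} → Bool) = 2 ^ (N - B.card) := by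
    rw [Fintype.card_fun, Fintype.card_bool, Fintype.card_subtype_compl, Fintype.card_fin,
      Fintype.card_coe]
  rw [← h1, ← Finset.card_univ]
  refine Finset.card_bij' (fun x _ => fun i : {i // i ∉ B} => x i)
    (fun z _ => fun i => if h : i ∈ B then b else z ⟨i, h⟩) ?_ ?_ ?_ ?_
  · intro x _
    exact Finset.mem_univ _
  · intro z _
    rw [Finset.mem_filter]
    exact ⟨Finset.mem_univ _, fun i hi => dif_pos hi⟩
  · intro x hx
    rw [Finset.mem_filter] at hx
    funext i
    by_cases h : i ∈ B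
    · simp only [dif_pos h]
      exact (hx.2 i h).symm
    · simp only [dif_neg h]
  · intro z _
    funext i
    simp only [dif_neg i.2]

open Classical in
theorem card_not_gd {k : ℕ} (hk : 40 ≤ k) (hN : 40 ≤ N) (B : Finset (Fin N)) (hB : 1 ≤ B.card)
    (hBN : B.card ≤ N) :
    ((univ.filter fun x : Fin N → Bool => ¬ Gd k B x).card : ℝ) ≤
      2 ^ N - 2 * (2 ^ N / 2 ^ B.card) + 2 ^ ((4 / 5 : ℝ) * N) := by
  have hsub : (univ.filter fun x : Fin N → Bool => ¬ Gd k B x) ⊆
      (univ.filter fun x : Fin N → Bool => ¬ ((∀ i ∈ B, x i = false) ∨ ∀ i ∈ B, x i = true)) ∪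
      ((univ.filter fun x : Fin N → Bool => ¬ Middle k x) ∪
      (univ.filter fun x : Fin N → Bool => ¬ Middle k (flipB B x))) := by
    intro x hx
    simp only [Finset.mem_filter, Finset.mem_univ, true_and, Finset.mem_union] at hx ⊢
    unfold Gd at hx
    tauto
  have hflip : (univ.filter fun x : Fin N → Bool => ¬ Middle k (flipB B x)).card =
      (univ.filter fun x : Fin N → Bool => ¬ Middle k x).card := by
    refine Finset.card_bij (fun x _ => flipB B x) ?_ ?_ ?_
    · intro x hx
      rw [Finset.mem_filter] at hx ⊢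
      exact ⟨Finset.mem_univ _, hx.2⟩
    · intro x _ y _ h
      rw [← flipB_flipB B x, h, flipB_flipB]
    · intro y hy
      refine ⟨flipB B y, ?_, flipB_flipB B y⟩
      rw [Finset.mem_filter, flipB_flipB] at *
      exact ⟨Finset.mem_univ _, hy.2⟩
  have hconst : (univ.filter fun x : Fin N → Bool =>
      ¬ ((∀ i ∈ B, x i = false) ∨ ∀ i ∈ B, x i = true)).card + 2 * 2 ^ (N - B.card) = 2 ^ N := by
    have h1 := Finset.card_filter_add_card_filter_not (s := (univ : Finset (Fin N → Bool)))
      (fun x => (∀ i ∈ B, x i = false) ∨ ∀ i ∈ B, x i = true)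
    have h2 : (univ.filter fun x : Fin N → Bool =>
        (∀ i ∈ B, x i = false) ∨ ∀ i ∈ B, x i = true).card = 2 * 2 ^ (N - B.card) := by
      rw [Finset.filter_or, Finset.card_union_of_disjoint, card_const, card_const, two_mul]
      rw [Finset.disjoint_left]
      intro x hx hx'
      rw [Finset.mem_filter] at hx hx'
      obtain ⟨i, hi⟩ := Finset.card_pos.1 hB
      have := hx.2 i hi
      rw [hx'.2 i hi] at this
      exact absurd this (by simp)
    have h3 : (univ : Finset (Fin N → Bool)).card = 2 ^ N := by simp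
    omega
  have h1 : ((univ.filter fun x : Fin N → Bool => ¬ Gd k B x).card : ℝ) ≤
      ((univ.filter fun x : Fin N → Bool =>
      ¬ ((∀ i ∈ B, x i = false) ∨ ∀ i ∈ B, x i = true)).card : ℝ) +
      (((univ.filter fun x : Fin N → Bool => ¬ Middle k x).card : ℝ) +
      ((univ.filter fun x : Fin N → Bool => ¬ Middle k x).card : ℝ)) := by
    have h2 := (Finset.card_le_card hsub).trans ((Finset.card_union_le _ _).trans
      (Nat.add_le_add_left (Finset.card_union_le _ _) _))
    rw [hflip] at h2
    exact_mod_cast h2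
  refine h1.trans ?_
  have h2 : ((univ.filter fun x : Fin N → Bool =>
      ¬ ((∀ i ∈ B, x i = false) ∨ ∀ i ∈ B, x i = true)).card : ℝ) =
      2 ^ N - 2 * (2 ^ N / 2 ^ B.card) := by
    have h3 : ((univ.filter fun x : Fin N → Bool =>
      ¬ ((∀ i ∈ B, x i = false) ∨ ∀ i ∈ B, x i = true)).card : ℝ) + 2 * 2 ^ (N - B.card) =
        2 ^ N := by exact_mod_cast hconst
    have h4 : (2 : ℝ) ^ N / 2 ^ B.card = 2 ^ (N - B.card) := by
      rw [div_eq_iff (by positivity), ← pow_add, Nat.sub_add_cancel hBN]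
    rw [h4]
    linarith
  rw [h2]
  have h3 := card_outer (N := N) hk
  have e1 : (5 / 4 : ℝ) ^ N ≤ 2 ^ ((13 / 40 : ℝ) * N) := by
    rw [Real.rpow_mul (by norm_num), Real.rpow_natCast]
    refine pow_le_pow_left₀ (by norm_num) ?_ N
    have h2 : (5 / 4 : ℝ) = ((5 / 4 : ℝ) ^ (40:ℕ)) ^ ((1:ℝ) / 40) := by
      rw [← Real.rpow_natCast, ← Real.rpow_mul (by norm_num)]
      norm_num
    have h3 : (2:ℝ) ^ (13 / 40 : ℝ) = ((2 : ℝ) ^ (13:ℕ)) ^ ((1:ℝ) / 40) := by
      rw [← Real.rpow_natCast, ← Real.rpow_mul (by norm_num)]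
      norm_num
    rw [h2, h3]
    exact Real.rpow_le_rpow (by positivity) (by norm_num) (by norm_num)
  have e2 : (4 : ℝ) ^ (N / 10) ≤ 2 ^ ((1 / 5 : ℝ) * N) := by
    have h2 : (4 : ℝ) ^ (N / 10) = 2 ^ (((2 * (N / 10) : ℕ) : ℝ)) := by
      rw [Real.rpow_natCast, pow_mul]
      norm_num
    rw [h2]
    refine Real.rpow_le_rpow_of_exponent_le (by norm_num) ?_
    have h3 : ((N / 10 : ℕ) : ℝ) ≤ (N : ℝ) / 10 := Nat.cast_div_le
    push_cast at h3 ⊢
    linarith
  have hN' : (40 : ℝ) ≤ N := by exact_mod_cast hN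
  have h5 : (4 : ℝ) ^ (N / 10) * (5 / 4) ^ N ≤ 2 ^ ((1 / 5 : ℝ) * N) * 2 ^ ((13 / 40 : ℝ) * N) :=
    mul_le_mul e2 e1 (by positivity) (by positivity)
  have h6 : (4 : ℝ) * (2 ^ ((1 / 5 : ℝ) * N) * 2 ^ ((13 / 40 : ℝ) * N)) ≤
      2 ^ ((4 / 5 : ℝ) * N) := by
    have h7 : (4 : ℝ) = 2 ^ (2 : ℝ) := by norm_num
    rw [h7, ← Real.rpow_add (by norm_num), ← Real.rpow_add (by norm_num)]
    refine Real.rpow_le_rpow_of_exponent_le (by norm_num) ?_
    linarith
  linarith

open Classical in
/-- A function that is invariant under an involution on a set agrees with a function that is not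
on about half of the set. -/
theorem agree_count {k : ℕ} {B : Finset (Fin N)} {f : (Fin N → Bool) → Bool}
    {P : (Fin N → Bool) → Prop} (hf : ∀ x, Gd k B x → f (flipB B x) = f x)
    (hP : ∀ x, Gd k B x → (P (flipB B x) ↔ ¬ P x)) :
    |((univ.filter fun x => (f x = true ↔ P x)).card : ℝ) - 2 ^ N / 2| ≤
      ((univ.filter fun x : Fin N → Bool => ¬ Gd k B x).card : ℝ) / 2 := by
  have h1 : (univ.filter fun x => (f x = true ↔ P x) ∧ Gd k B x).card =
      (univ.filter fun x => ¬ (f x = true ↔ P x) ∧ Gd k B x).card := by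
    refine Finset.card_bij (fun x _ => flipB B x) ?_ ?_ ?_
    · intro x hx
      rw [Finset.mem_filter] at hx ⊢
      refine ⟨Finset.mem_univ _, ?_, gd_flip hx.2.2⟩
      rw [hf x hx.2.2, hP x hx.2.2]
      have := hx.2.1
      tauto
    · intro x _ y _ h
      rw [← flipB_flipB B x, h, flipB_flipB]
    · intro y hy
      rw [Finset.mem_filter] at hy
      refine ⟨flipB B y, ?_, flipB_flipB B y⟩
      rw [Finset.mem_filter]
      refine ⟨Finset.mem_univ _, ?_, gd_flip hy.2.2⟩
      rw [hf y hy.2.2, hP y hy.2.2]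
      have := hy.2.1
      tauto
  have h2 : (univ.filter fun x => (f x = true ↔ P x)).card =
      (univ.filter fun x => (f x = true ↔ P x) ∧ Gd k B x).card +
      (univ.filter fun x => (f x = true ↔ P x) ∧ ¬ Gd k B x).card := by
    rw [← Finset.filter_filter, ← Finset.filter_filter, Finset.card_filter_add_card_filter_not]
  have h3 : (univ.filter fun x => ¬ (f x = true ↔ P x)).card =
      (univ.filter fun x => ¬ (f x = true ↔ P x) ∧ Gd k B x).card +
      (univ.filter fun x => ¬ (f x = true ↔ P x) ∧ ¬ Gd k B x).card := by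
    rw [← Finset.filter_filter, ← Finset.filter_filter, Finset.card_filter_add_card_filter_not]
  have h4 : (univ.filter fun x : Fin N → Bool => ¬ Gd k B x).card =
      (univ.filter fun x => (f x = true ↔ P x) ∧ ¬ Gd k B x).card +
      (univ.filter fun x => ¬ (f x = true ↔ P x) ∧ ¬ Gd k B x).card := by
    have h5 := Finset.card_filter_add_card_filter_not
      (s := univ.filter fun x : Fin N → Bool => ¬ Gd k B x) (fun x => (f x = true ↔ P x))
    rw [Finset.filter_filter, Finset.filter_filter] at h5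
    rw [← h5]
    congr 2
    · ext x
      simp only [Finset.mem_filter, Finset.mem_univ, true_and]
      exact and_comm
    · ext x
      simp only [Finset.mem_filter, Finset.mem_univ, true_and]
      exact and_comm
  have h5 : (univ.filter fun x => (f x = true ↔ P x)).card +
      (univ.filter fun x => ¬ (f x = true ↔ P x)).card = 2 ^ N := by
    rw [Finset.card_filter_add_card_filter_not, Finset.card_univ]
    simp
  have h5' : ((univ.filter fun x => (f x = true ↔ P x)).card : ℝ) +
      ((univ.filter fun x => ¬ (f x = true ↔ P x)).card : ℝ) = 2 ^ N := by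
    exact_mod_cast h5
  rw [← h5', abs_le]
  have g2 : ((univ.filter fun x => (f x = true ↔ P x)).card : ℝ) =
      ((univ.filter fun x => (f x = true ↔ P x) ∧ Gd k B x).card : ℝ) +
      ((univ.filter fun x => (f x = true ↔ P x) ∧ ¬ Gd k B x).card : ℝ) := by
    exact_mod_cast h2
  have g3 : ((univ.filter fun x => ¬ (f x = true ↔ P x)).card : ℝ) =
      ((univ.filter fun x => ¬ (f x = true ↔ P x) ∧ Gd k B x).card : ℝ) +
      ((univ.filter fun x => ¬ (f x = true ↔ P x) ∧ ¬ Gd k B x).card : ℝ) := by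
    exact_mod_cast h3
  have g4 : ((univ.filter fun x : Fin N → Bool => ¬ Gd k B x).card : ℝ) =
      ((univ.filter fun x => (f x = true ↔ P x) ∧ ¬ Gd k B x).card : ℝ) +
      ((univ.filter fun x => ¬ (f x = true ↔ P x) ∧ ¬ Gd k B x).card : ℝ) := by
    exact_mod_cast h4
  have g1 : ((univ.filter fun x => (f x = true ↔ P x) ∧ Gd k B x).card : ℝ) =
      ((univ.filter fun x => ¬ (f x = true ↔ P x) ∧ Gd k B x).card : ℝ) := by
    exact_mod_cast h1
  have n1 : (0 : ℝ) ≤ ((univ.filter fun x => (f x = true ↔ P x) ∧ ¬ Gd k B x).card : ℝ) :=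
    Nat.cast_nonneg _
  have n2 : (0 : ℝ) ≤ ((univ.filter fun x => ¬ (f x = true ↔ P x) ∧ ¬ Gd k B x).card : ℝ) :=
    Nat.cast_nonneg _
  rw [g2, g3, g4, g1]
  constructor <;> linarith

end Pool.Agent.J6H7.SM
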