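import Pool.Agent.J6H7.SC.Defs

/-!
# Circuits with modular gates whose gates have few transforms: definitions
-/

set_option autoImplicit false

namespace Pool.Agent.J6H7.SM

open Equiv Pool.Agent.J6H7.SC

/-- The function `φ` of the wires depends only on the number of the wires in `A` with the value
one modulo `p`. -/
def Modular {W : Type} (p : ℕ) (A : Set W) (φ : (W → Bool) → Bool) : Prop :=
  ∀ v w, {c | c ∈ A ∧ v c = true}.ncard ≡ {c | c ∈ A ∧ w c = true}.ncard [MOD p] → φ v = φ w

/-- A circuit with `N` inputs and the set `I` of gates. `ch g` is the set of the wires that enter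
the gate `g` (a wire carries an input bit or the value of a gate), `fn g` is the function of the
values of these wires that is computed at `g`. Wires go from gates of smaller to gates of larger
`rank`. Every gate has one of three kinds: one of the two values is certified by at most `t`
wires; there are at most `r` wires; the value depends only on the number of the wires with the value
one modulo `p`. -/
structure Circ (N t r p : ℕ) (I : Type) where
  ch : I → Set (Fin N ⊕ I)
  fn : I → (Fin N ⊕ I → Bool) → Bool
  rank : I → ℕ
  rank_lt : ∀ g h, Sum.inr h ∈ ch g → rank h < rank g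
  dep : ∀ g v w, (∀ c ∈ ch g, v c = w c) → fn g v = fn g w
  kind : ∀ g, (∃ b, Certified (ch g) (fn g) t b) ∨ (ch g).ncard ≤ r ∨ Modular p (ch g) (fn g)

namespace Circ

variable {N t r p : ℕ} {I : Type}

open Classical in
/-- The value of the gate `g` on the input `x`. -/
noncomputable def eval (C : Circ N t r p I) (x : Fin N → Bool) (g : I) : Bool :=
  C.fn g (Sum.elim x fun h => if _ : Sum.inr h ∈ C.ch g then C.eval x h else false)
termination_by C.rank g
decreasing_by exact C.rank_lt g h ‹_›

/-- The function on a wire. -/
noncomputable def val (C : Circ N t r p I) (c : Fin N ⊕ I) : BF N :=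
  fun x => Sum.elim x (C.eval x) c

open Classical in
/-- The trace of a gate: only the function computed at the gate, if one of the values of the
gate is certified by at most `t` wires, and the functions on the wires that enter the
gate with their multiplicities otherwise. -/
noncomputable def trace (C : Circ N t r p I) (g : I) : Set (BF N × ℕ) :=
  if ∃ b, Certified (C.ch g) (C.fn g) t b then {(fun x => C.eval x g, 0)}
  else (fun c => (C.val c, {c' | c' ∈ C.ch g ∧ C.val c' = C.val c}.ncard)) '' C.ch g

/-- The sets that are obtained from the trace of the gate `g` by permuting the input bits. -/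
def transforms (C : Circ N t r p I) (g : I) : Set (Set (BF N × ℕ)) :=
  {F | ∃ σ : Perm (Fin N), F = (fun z => (move σ z.1, z.2)) '' C.trace g}

/-- The permutation `π` of the gates is an automorphism of the circuit which permutes the inputs
by `σ`. -/
structure IsAut (C : Circ N t r p I) (σ : Perm (Fin N)) (π : Perm I) : Prop where
  ch : ∀ g c, Sum.map σ π c ∈ C.ch (π g) ↔ c ∈ C.ch g
  fn : ∀ g v, C.fn (π g) v = C.fn g (v ∘ Sum.map σ π)

/-- The permutations of the inputs which extend to automorphisms of the circuit. -/
def symmetries (C : Circ N t r p I) : Set (Perm (Fin N)) := {σ | ∃ π : Perm I, C.IsAut σ π}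

end Circ

/-- the number of the ones -/
def ones {N : ℕ} (x : Fin N → Bool) : ℕ := (Finset.univ.filter fun i => x i = true).card

end Pool.Agent.J6H7.SM
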