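import Pool.Agent.J6H7.SM.Mod
import Pool.Agent.J6H7.SC.Main

/-!
# The gates are determined by few bits and the number of ones modulo a prime power
-/

set_option autoImplicit false
set_option linter.unusedSectionVars false

namespace Pool.Agent.J6H7.SM

open Equiv Equiv.Perm Pool.Agent.J6H7.SC

variable {N t r p : ℕ} {I : Type}

theorem ones_comp (x : Fin N → Bool) (σ : Perm (Fin N)) : ones (x ∘ σ) = ones x := by
  unfold ones
  refine Finset.card_bij (fun i _ => σ i) ?_ ?_ ?_
  · intro i hi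
    simpa using hi
  · intro i _ j _ h
    exact σ.injective h
  · intro j hj
    refine ⟨σ.symm j, ?_, by simp⟩
    simpa using hj

theorem ones_add_zeros (x : Fin N → Bool) :
    ones x + (Finset.univ.filter fun i => x i = false).card = N := by
  have h2 := Finset.card_filter_add_card_filter_not (s := (Finset.univ : Finset (Fin N)))
    (fun i => x i = true)
  have h3 : (Finset.univ.filter fun i => ¬ x i = true) =
      Finset.univ.filter fun i => x i = false := by
    ext i
    simp
  rw [h3, Finset.card_univ, Fintype.card_fin] at h2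
  exact h2

namespace Circ

variable (C : Circ N t r p I)

theorem eval_eq (x : Fin N → Bool) (g : I) : C.eval x g = C.fn g (fun c => C.val c x) := by
  classical
  rw [eval]
  refine C.dep g _ _ fun c hc => ?_
  rcases c with i | h
  · rfl
  · simp only [Sum.elim_inr, val]
    rw [dif_pos hc]

/-- A wire is determined on the inputs of the middle layers by at most `s` bits and the number of
ones modulo `q`, and its function is invariant under the even permutations fixing these bits. -/
def Good (k s q : ℕ) (c : Fin N ⊕ I) : Prop :=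
  ∃ T : Finset (Fin N), T.card ≤ s ∧ Supp {C.val c} T ∧ ∀ x y : Fin N → Bool, Middle k x →
    Middle k y → (∀ i ∈ T, x i = y i) → ones x ≡ ones y [MOD q] → C.val c x = C.val c y

theorem good_inl {k s q : ℕ} (hs : 1 ≤ s) (i : Fin N) : C.Good k s q (Sum.inl i) := by
  refine ⟨{i}, by rw [Finset.card_singleton]; exact hs, fun γ _ hγ => ?_, fun x y _ _ h _ => ?_⟩
  · rw [Set.image_singleton, Set.singleton_eq_singleton_iff]
    funext x
    change x (γ i) = x i
    rw [hγ i (Finset.mem_singleton_self i)]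
  · exact h i (Finset.mem_singleton_self i)

theorem supp_apply {f : BF N} {S : Finset (Fin N)} (h : Supp {f} S) {γ : Perm (Fin N)}
    (h1 : sign γ = 1) (h2 : ∀ i ∈ S, γ i = i) (y : Fin N → Bool) : f (y ∘ γ) = f y := by
  have h3 := h γ h1 h2
  rw [Set.image_singleton, Set.singleton_eq_singleton_iff] at h3
  exact congrFun h3 y

open Classical in
/-- the wires of a gate -/
noncomputable def wires [Finite I] (g : I) : Finset (Fin N ⊕ I) := (Set.toFinite (C.ch g)).toFinset

theorem mem_wires [Finite I] {g : I} {c : Fin N ⊕ I} : c ∈ C.wires g ↔ c ∈ C.ch g := by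
  unfold wires
  rw [Set.Finite.mem_toFinset]

theorem ncard_cnt [Finite I] (g : I) (x : Fin N → Bool) :
    {c | c ∈ C.ch g ∧ C.val c x = true}.ncard = cnt (C.wires g) C.val x := by
  classical
  unfold cnt
  rw [← Set.ncard_coe_finset]
  congr 1
  ext c
  rw [Finset.mem_coe, Finset.mem_filter, mem_wires]
  rfl

theorem ncard_mul [Finite I] (g : I) (f : BF N) :
    {c | c ∈ C.ch g ∧ C.val c = f}.ncard = mul (C.wires g) C.val f := by
  classical
  unfold mul
  rw [← Set.ncard_coe_finset]
  congr 1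
  ext c
  rw [Finset.mem_coe, Finset.mem_filter, mem_wires]
  rfl

/-- the trace of a gate with no certified value -/
theorem trace_of_not [Finite I] {g : I} (h : ¬ ∃ b, Certified (C.ch g) (C.fn g) t b) :
    C.trace g = (fun c => (C.val c, mul (C.wires g) C.val (C.val c))) '' C.ch g := by
  unfold trace
  rw [if_neg h]
  refine Set.image_congr fun c _ => ?_
  rw [C.ncard_mul]

/-- the multiplicities are invariant -/
theorem mul_move [Finite I] {g : I} (h : ¬ ∃ b, Certified (C.ch g) (C.fn g) t b)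
    {γ : Perm (Fin N)} (hγ : mv γ '' C.trace g = C.trace g) (f : BF N) :
    mul (C.wires g) C.val (move γ f) = mul (C.wires g) C.val f := by
  classical
  have key : ∀ (γ : Perm (Fin N)), mv γ '' C.trace g = C.trace g → ∀ f : BF N,
      mul (C.wires g) C.val f ≠ 0 →
      mul (C.wires g) C.val (move γ f) = mul (C.wires g) C.val f := by
    intro γ hγ f hf
    rw [C.trace_of_not h] at hγ
    obtain ⟨c, hc⟩ := Finset.card_pos.1 (Nat.pos_of_ne_zero hf)
    rw [Finset.mem_filter, mem_wires] at hc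
    obtain ⟨hc1, rfl⟩ := hc
    have h1 : mv γ (C.val c, mul (C.wires g) C.val (C.val c)) ∈
        (fun c => (C.val c, mul (C.wires g) C.val (C.val c))) '' C.ch g := by
      rw [← hγ]
      exact Set.mem_image_of_mem _ ⟨c, hc1, rfl⟩
    obtain ⟨c', _, hc'⟩ := h1
    have e1 : C.val c' = move γ (C.val c) := congrArg Prod.fst hc'
    have e2 : mul (C.wires g) C.val (C.val c') = mul (C.wires g) C.val (C.val c) :=
      congrArg Prod.snd hc'
    rw [← e1, e2]
  by_cases hf : mul (C.wires g) C.val f = 0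
  · by_contra hcon
    rw [hf] at hcon
    have hinv : mv γ⁻¹ '' C.trace g = C.trace g := by
      conv_lhs => rw [← hγ]
      rw [← mv_image_mul, inv_mul_cancel, mv_image_one]
    have h1 := key γ⁻¹ hinv (move γ f) hcon
    rw [← move_mul, inv_mul_cancel, move_one, hf] at h1
    exact hcon h1.symm
  · exact key γ hγ f hf

/-- The step for modular gates. -/
theorem cnt_step [Finite I] {k s e : ℕ} (hp : p.Prime) (hodd : p ≠ 2) (he : 1 ≤ e)
    (hk : 1 ≤ k) (hs : k * (s + s + 1) ≤ 4 * N) (hq : s < p ^ e) (hN : 2 * s + 3 ≤ N) {g : I}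
    (h : ¬ ∃ b, Certified (C.ch g) (C.fn g) t b)
    (hch : ∀ c ∈ C.ch g, C.Good k s (p ^ e) c) {S : Finset (Fin N)} (hS : SuppM (C.trace g) S)
    {x y : Fin N → Bool} (hx : Middle k x) (hy : Middle k y) {B : Finset (Fin N)}
    (hB : B.card = p ^ e) (hBS : ∀ i ∈ B, i ∉ S) (hxB : ∀ i ∈ B, x i = false)
    (hyB : ∀ i ∈ B, y i = true) (hxy : ∀ i ∉ B, x i = y i) :
    cnt (C.wires g) C.val x ≡ cnt (C.wires g) C.val y [MOD p] := by
  classical
  obtain ⟨σ, hσ1, hσ2, hσ3, hσ4, hσ5⟩ := exists_cycle hp hodd he B hB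
  have hσS : ∀ i ∈ S, σ i = i := fun i hi => hσ3 i fun hiB => hBS i hiB hi
  have hn := C.mul_move h (hS σ hσ1 hσS)
  refine cnt_modEq hp (C.wires g) C.val σ hσ2 hn ?_ ?_ fun c hc hfix => ?_
  · funext i
    change x (σ i) = x i
    by_cases hi : i ∈ B
    · rw [hxB i hi, hxB _ (hσ4 i hi)]
    · rw [hσ3 i hi]
  · funext i
    change y (σ i) = y i
    by_cases hi : i ∈ B
    · rw [hyB i hi, hyB _ (hσ4 i hi)]
    · rw [hσ3 i hi]
  · rw [mem_wires] at hc
    obtain ⟨T, hT1, hT2, hT3⟩ := hch c hc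
    have hT4 := supp_sdiff hT2 hσ5 hfix (by omega) (by omega)
    obtain ⟨hy1, hy0⟩ := SC.Circ.middle_le (k := k) (s := s + s + 1) hk hs hy
    have hTB : (T \ B).card ≤ s := (Finset.card_le_card Finset.sdiff_subset).trans hT1
    obtain ⟨γ, hγ1, hγ2, hγ3⟩ := exists_move (T \ B) T hTB hT1
      (fun i hi => hxy i (Finset.mem_sdiff.1 hi).2) hy1 hy0
    have h1 : C.val c (y ∘ γ) = C.val c y := supp_apply hT4 hγ1 hγ2 y
    rw [← h1]
    have hones : ones y = ones x + p ^ e := by
      unfold ones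
      rw [← hB, ← Finset.card_union_of_disjoint]
      · congr 1
        ext i
        simp only [Finset.mem_filter, Finset.mem_univ, true_and, Finset.mem_union]
        by_cases hi : i ∈ B
        · simp [hi, hyB i hi]
        · simp [hi, hxy i hi]
      · rw [Finset.disjoint_left]
        intro i hi hiB
        rw [Finset.mem_filter, hxB i hiB] at hi
        exact absurd hi.2 (by simp)
    refine hT3 x (y ∘ γ) hx (SC.Circ.middle_comp hy γ) (fun i hi => (hγ3 i hi).symm) ?_
    rw [ones_comp, hones]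
    exact (Nat.ModEq.refl _).trans (by simp [Nat.ModEq])

/-- The count of a modular gate. -/
theorem cnt_middle [Finite I] {k s e : ℕ} (hp : p.Prime) (hodd : p ≠ 2) (he : 1 ≤ e)
    (hk : 1 ≤ k) (hs : k * (s + s + 1) ≤ 4 * N) (hq : s < p ^ e) (hN : 2 * s + 3 ≤ N) {g : I}
    (h : ¬ ∃ b, Certified (C.ch g) (C.fn g) t b)
    (hch : ∀ c ∈ C.ch g, C.Good k s (p ^ e) c) {S : Finset (Fin N)} (hS : SuppM (C.trace g) S)
    (hSs : S.card ≤ s) (j : ℕ) : ∀ {x y : Fin N → Bool}, Middle k x → Middle k y →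
    (∀ i ∈ S, x i = y i) → ones y = ones x + j * p ^ e →
    cnt (C.wires g) C.val x ≡ cnt (C.wires g) C.val y [MOD p] := by
  classical
  induction j with
  | zero =>
    intro x y _ _ hxy hones
    obtain ⟨γ, hγ1, hγ2, hγ3⟩ := exists_even_eq S hxy (by omega) (by omega)
    rw [← hγ3, cnt_comp (C.wires g) C.val γ (C.mul_move h (hS γ hγ1 hγ2))]
  | succ j ih =>
    intro x y hx hy hxy hones
    obtain ⟨hy1, hy0⟩ := SC.Circ.middle_le (k := k) (s := s + s + 1) hk hs hy
    have hzx := ones_add_zeros x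
    have hzy := ones_add_zeros y
    have hexp : (j + 1) * p ^ e = j * p ^ e + p ^ e := by ring
    rw [hexp] at hones
    obtain ⟨B, hB1, hB2⟩ : ∃ B : Finset (Fin N),
        B ⊆ (Finset.univ.filter fun i => x i = false) \ S ∧ B.card = p ^ e := by
      refine Finset.exists_subset_card_eq ?_
      have h3 := Finset.le_card_sdiff S (Finset.univ.filter fun i => x i = false)
      omega
    have hB3 : ∀ i ∈ B, x i = false ∧ i ∉ S := by
      intro i hi
      have := hB1 hi
      rw [Finset.mem_sdiff, Finset.mem_filter] at this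
      exact ⟨this.1.2, this.2⟩
    obtain ⟨z, hz⟩ : ∃ z : Fin N → Bool, z = fun i => if i ∈ B then true else x i := ⟨_, rfl⟩
    have hzB : ∀ i ∈ B, z i = true := by
      intro i hi
      rw [hz]
      exact if_pos hi
    have hzn : ∀ i ∉ B, x i = z i := by
      intro i hi
      rw [hz]
      exact (if_neg hi).symm
    have hzones : ones z = ones x + p ^ e := by
      unfold ones
      rw [← hB2, ← Finset.card_union_of_disjoint]
      · congr 1
        ext i
        simp only [Finset.mem_filter, Finset.mem_univ, true_and, Finset.mem_union]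
        by_cases hi : i ∈ B
        · simp [hi, hzB i hi]
        · simp [hi, hzn i hi]
      · rw [Finset.disjoint_left]
        intro i hi hiB
        rw [Finset.mem_filter, (hB3 i hiB).1] at hi
        exact absurd hi.2 (by simp)
    have hzz := ones_add_zeros z
    have hmz : Middle k z := by
      refine ⟨?_, ?_⟩
      · refine hx.1.trans (Nat.mul_le_mul_left k ?_)
        change ones x ≤ ones z
        omega
      · refine hy.2.trans (Nat.mul_le_mul_left k ?_)
        omega
    refine (C.cnt_step hp hodd he hk hs hq hN h hch hS hx hmz hB2 (fun i hi => (hB3 i hi).2)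
      (fun i hi => (hB3 i hi).1) hzB hzn).trans ?_
    refine ih hmz hy (fun i hi => ?_) (by omega)
    rw [← hzn i (fun hiB => (hB3 i hiB).2 hi)]
    exact hxy i hi

/-- One gate. -/
theorem good_gate [Finite I] {k s q : ℕ} (hk : 1 ≤ k) (ht : 1 ≤ t)
    (hs : k * (s + t * s + 1) ≤ 4 * N) (hs5 : 2 * s + 5 ≤ N) (hr : r + s < N)
    (hpq : (p = 1 ∧ q = 1) ∨ (p.Prime ∧ p ≠ 2 ∧ s < q ∧ ∃ e, 1 ≤ e ∧ q = p ^ e)) (g : I)
    (hch : ∀ c ∈ C.ch g, C.Good k s q c) (S : Finset (Fin N)) (hS : S.card ≤ s)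
    (hsupp : SuppM (C.trace g) S) : C.Good k s q (Sum.inr g) := by
  classical
  have hss : k * (s + s + 1) ≤ 4 * N := by
    refine le_trans (Nat.mul_le_mul_left k ?_) hs
    have := Nat.le_mul_of_pos_left s ht
    omega
  by_cases hkind : ∃ b, Certified (C.ch g) (C.fn g) t b
  · -- a gate with certificates
    have htr : C.trace g = {(fun x => C.eval x g, 0)} := by
      unfold trace
      rw [if_pos hkind]
    rw [htr] at hsupp
    have hsup : Supp {C.val (Sum.inr g)} S := by
      have h1 := hsupp.fst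
      rw [Set.image_singleton] at h1
      exact h1
    refine ⟨S, hS, hsup, fun x y hx hy hxy hmod => ?_⟩
    obtain ⟨b, hb⟩ := hkind
    have key : ∀ x y : Fin N → Bool, Middle k x → Middle k y → (∀ i ∈ S, x i = y i) →
        ones x ≡ ones y [MOD q] → C.eval x g = b → C.eval y g = b := by
      intro x y hx hy hxy hmod hxb
      rw [eval_eq] at hxb
      obtain ⟨B, hB1, hB2, hB3⟩ := hb _ hxb
      have hex : ∀ c : B, ∃ T : Finset (Fin N), T.card ≤ s ∧ ∀ x y : Fin N → Bool,
          Middle k x → Middle k y → (∀ i ∈ T, x i = y i) → ones x ≡ ones y [MOD q] →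
          C.val c x = C.val c y := by
        intro c
        obtain ⟨T, hT1, _, hT3⟩ := hch c (hB1 c c.2)
        exact ⟨T, hT1, hT3⟩
      choose T hT1 hT2 using hex
      obtain ⟨T', hT'⟩ : ∃ T', T' = Finset.univ.biUnion T := ⟨_, rfl⟩
      have hcard : T'.card ≤ t * s := by
        rw [hT']
        refine Finset.card_biUnion_le.trans ((Finset.sum_le_card_nsmul _ _ s
          (fun c _ => hT1 c)).trans ?_)
        rw [Finset.card_univ, Fintype.card_coe, smul_eq_mul]
        exact Nat.mul_le_mul_right _ hB2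
      obtain ⟨hy1, hy0⟩ := SC.Circ.middle_le hk hs hy
      obtain ⟨γ, hγ1, hγ2, hγ3⟩ := exists_move S T' hS hcard hxy hy1 hy0
      have h1 : C.eval (y ∘ γ) g = b := by
        rw [eval_eq]
        refine hB3 _ fun c hc => ?_
        refine hT2 ⟨c, hc⟩ (y ∘ γ) x (SC.Circ.middle_comp hy γ) hx (fun i hi => ?_) ?_
        · refine hγ3 i ?_
          rw [hT', Finset.mem_biUnion]
          exact ⟨⟨c, hc⟩, Finset.mem_univ _, hi⟩
        · rw [ones_comp]
          exact hmod.symm
      have h3 : C.eval (y ∘ γ) g = C.eval y g := supp_apply hsup hγ1 hγ2 y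
      rw [← h3]
      exact h1
    change C.eval x g = C.eval y g
    by_cases h1 : C.eval x g = b
    · rw [h1, key x y hx hy hxy hmod h1]
    · by_cases h2 : C.eval y g = b
      · exact absurd (key y x hy hx (fun i hi => (hxy i hi).symm) hmod.symm h2) h1
      · revert h1 h2
        cases C.eval x g <;> cases C.eval y g <;> cases b <;> simp
  rcases C.kind g with h1 | hfew | hmod
  · exact absurd h1 hkind
  · -- a gate with few wires
    have hfst : Prod.fst '' C.trace g = C.val '' C.ch g := by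
      rw [C.trace_of_not hkind, ← Set.image_comp]
      rfl
    have hsup := hsupp.fst
    rw [hfst] at hsup
    have hcard : (C.val '' C.ch g).ncard ≤ r := (Set.ncard_image_le (Set.toFinite _)).trans hfew
    have hinv : ∀ c ∈ C.ch g, Supp {C.val c} S := fun c hc =>
      small_family hsup (by omega) (by omega) ⟨c, hc, rfl⟩
    refine ⟨S, hS, fun γ hγ1 hγ2 => ?_, fun x y hx hy hxy hmod => ?_⟩
    · rw [Set.image_singleton, Set.singleton_eq_singleton_iff]
      funext y
      change C.eval (y ∘ γ) g = C.eval y g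
      rw [eval_eq, eval_eq]
      exact C.dep g _ _ fun c hc => supp_apply (hinv c hc) hγ1 hγ2 y
    · change C.eval x g = C.eval y g
      rw [eval_eq, eval_eq]
      refine C.dep g _ _ fun c hc => ?_
      obtain ⟨T, hT1, _, hT3⟩ := hch c hc
      obtain ⟨hy1, hy0⟩ := SC.Circ.middle_le (k := k) (s := s + s + 1) hk hss hy
      obtain ⟨γ, hγ1, hγ2, hγ3⟩ := exists_move S T hS hT1 hxy hy1 hy0
      have h1 : C.val c (y ∘ γ) = C.val c x := by
        refine hT3 _ _ (SC.Circ.middle_comp hy γ) hx hγ3 ?_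
        rw [ones_comp]
        exact hmod.symm
      have h3 := supp_apply (hinv c hc) hγ1 hγ2 y
      change C.val c x = C.val c y
      rw [← h1, h3]
  · -- a modular gate
    rcases hpq with ⟨hp1, _⟩ | ⟨hp, hodd, hsq, e, he, hqe⟩
    · exfalso
      apply hkind
      have hone : ∀ a b : ℕ, a ≡ b [MOD p] := by
        intro a b
        rw [hp1]
        exact Nat.modEq_one
      refine ⟨true, fun v hv => ⟨∅, by simp, by simp, fun w _ => ?_⟩⟩
      rw [← hv]
      exact hmod w v (hone _ _)
    · subst hqe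
      refine ⟨S, hS, fun γ hγ1 hγ2 => ?_, fun x y hx hy hxy hm => ?_⟩
      · rw [Set.image_singleton, Set.singleton_eq_singleton_iff]
        funext y
        change C.eval (y ∘ γ) g = C.eval y g
        rw [eval_eq, eval_eq]
        apply hmod
        rw [C.ncard_cnt, C.ncard_cnt,
          cnt_comp (C.wires g) C.val γ (C.mul_move hkind (hsupp γ hγ1 hγ2))]
      · change C.eval x g = C.eval y g
        rw [eval_eq, eval_eq]
        apply hmod
        rw [C.ncard_cnt, C.ncard_cnt]
        rcases le_total (ones x) (ones y) with hle | hle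
        · obtain ⟨j, hj⟩ := (Nat.modEq_iff_dvd' hle).1 hm
          exact C.cnt_middle hp hodd he hk hss hsq (by omega) hkind hch hsupp hS j hx hy hxy
            (by rw [Nat.mul_comm] at hj; omega)
        · obtain ⟨j, hj⟩ := (Nat.modEq_iff_dvd' hle).1 hm.symm
          exact (C.cnt_middle hp hodd he hk hss hsq (by omega) hkind hch hsupp hS j hy hx
            (fun i hi => (hxy i hi).symm) (by rw [Nat.mul_comm] at hj; omega)).symm

/-- All gates. -/
theorem good_all [Finite I] {k s q : ℕ} (hk : 1 ≤ k) (ht : 1 ≤ t) (hs1 : 1 ≤ s)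
    (hs : k * (s + t * s + 1) ≤ 4 * N) (hs5 : 2 * s + 5 ≤ N) (hr : r + s < N)
    (hpq : (p = 1 ∧ q = 1) ∨ (p.Prime ∧ p ≠ 2 ∧ s < q ∧ ∃ e, 1 ≤ e ∧ q = p ^ e))
    (hsupp : ∀ g, ∃ S : Finset (Fin N), S.card ≤ s ∧ SuppM (C.trace g) S) (g : I) :
    C.Good k s q (Sum.inr g) := by
  induction h : C.rank g using Nat.strong_induction_on generalizing g with
  | _ n ih =>
    obtain ⟨S, hS1, hS2⟩ := hsupp g
    refine C.good_gate hk ht hs hs5 hr hpq g (fun c hc => ?_) S hS1 hS2
    rcases c with i | g'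
    · exact C.good_inl hs1 i
    · exact ih (C.rank g') (h ▸ C.rank_lt g g' hc) g' rfl

theorem transforms_finite [Finite I] (g : I) : (C.transforms g).Finite := by
  have : C.transforms g = Set.range fun σ : Perm (Fin N) => mv σ '' C.trace g := by
    ext F
    constructor
    · rintro ⟨σ, rfl⟩
      exact ⟨σ, rfl⟩
    · rintro ⟨σ, rfl⟩
      exact ⟨σ, rfl⟩
  rw [this]
  exact Set.finite_range _

/-- **The gates are determined by few bits and the number of ones modulo a prime power on the
middle layers.** -/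
theorem determined [Finite I] {k : ℕ} (hk : 10 ≤ k) (ht : 1 ≤ t) (hN : k * t ≤ N)
    (hr : k * r + 2 * N ≤ k * N) (hp : p = 1 ∨ (p.Prime ∧ p ≠ 2))
    (hM : ∀ h : I, (C.transforms h).ncard ^ (k * t) ≤ 2 ^ N) :
    ∃ q : ℕ, (∃ e, q = p ^ e) ∧ k * q ≤ 2 * p * N ∧ ∀ g : I,
    ∃ S : Finset (Fin N), k * S.card ≤ 2 * N ∧ ∀ x y : Fin N → Bool, Middle k x → Middle k y →
      (∀ i ∈ S, x i = y i) → ones x ≡ ones y [MOD q] → C.eval x g = C.eval y g := by
  obtain ⟨m, hm⟩ : ∃ m, m = N / (k * t) := ⟨_, rfl⟩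
  have hkt : 0 < k * t := Nat.mul_pos (by omega) (by omega)
  have hm1 : 1 ≤ m := by
    rw [hm]
    exact (Nat.one_le_div_iff hkt).2 hN
  have hm2 : k * t * m ≤ N := by
    rw [hm]
    exact Nat.mul_div_le N (k * t)
  have hm3 : N < k * t * (m + 1) := by
    rw [hm]
    exact Nat.lt_mul_div_succ N hkt
  have hkm : k * m ≤ N := by
    refine le_trans ?_ hm2
    refine Nat.mul_le_mul_right m ?_
    exact Nat.le_mul_of_pos_right k ht
  have h10 : 10 * m ≤ N := (Nat.mul_le_mul_right m hk).trans hkm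
  have hcard : ∀ h : I, (C.transforms h).ncard < 5 ^ m := by
    intro h
    have h1 : (C.transforms h).ncard ^ (k * t) < (2 ^ (m + 1)) ^ (k * t) := by
      refine lt_of_le_of_lt (hM h) ?_
      rw [← pow_mul]
      refine Nat.pow_lt_pow_right (by omega) ?_
      rw [Nat.mul_comm]
      exact hm3
    have h2 : (C.transforms h).ncard < 2 ^ (m + 1) := lt_of_pow_lt_pow_left₀ _ (Nat.zero_le _) h1
    have h3 : ∀ j, 2 ^ (j + 1 + 1) ≤ 5 ^ (j + 1) := by
      intro j
      induction j with
      | zero => norm_num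
      | succ j ih =>
        rw [pow_succ 2 (j + 1 + 1), pow_succ 5 (j + 1)]
        omega
    obtain ⟨j, rfl⟩ : ∃ j, m = j + 1 := ⟨m - 1, by omega⟩
    exact lt_of_lt_of_le h2 (h3 j)
  have hsupp : ∀ g, ∃ S : Finset (Fin N), S.card ≤ 2 * m - 1 ∧ SuppM (C.trace g) S := by
    intro g
    obtain ⟨S, hS1, hS2⟩ := exists_suppM hm1 h10 (C.trace g) (C.transforms g)
      (C.transforms_finite g) (fun σ => ⟨σ, rfl⟩) (hcard g)
    exact ⟨S, by omega, hS2⟩
  have hs : k * ((2 * m - 1) + t * (2 * m - 1) + 1) ≤ 4 * N := by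
    have h1 : (2 * m - 1) + t * (2 * m - 1) + 1 ≤ 4 * (t * m) := by
      obtain ⟨j, rfl⟩ : ∃ j, m = j + 1 := ⟨m - 1, by omega⟩
      obtain ⟨u, rfl⟩ : ∃ u, t = u + 1 := ⟨t - 1, by omega⟩
      have : 2 * (j + 1) - 1 = 2 * j + 1 := by omega
      rw [this]
      nlinarith [Nat.zero_le (u * j)]
    calc k * ((2 * m - 1) + t * (2 * m - 1) + 1) ≤ k * (4 * (t * m)) := Nat.mul_le_mul_left _ h1
      _ = 4 * (k * t * m) := by ring
      _ ≤ 4 * N := Nat.mul_le_mul_left _ hm2
  have hrs : r + (2 * m - 1) < N := by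
    by_contra hcon
    push Not at hcon
    have h1 : k * N ≤ k * (r + (2 * m - 1)) := Nat.mul_le_mul_left _ hcon
    have h2 : k * (r + (2 * m - 1)) + k ≤ k * r + 2 * (k * m) := by
      obtain ⟨j, rfl⟩ : ∃ j, m = j + 1 := ⟨m - 1, by omega⟩
      have : 2 * (j + 1) - 1 = 2 * j + 1 := by omega
      rw [this]
      nlinarith
    omega
  -- the modulus
  obtain ⟨q, hq1, hq2, hq3⟩ : ∃ q : ℕ, (∃ e, q = p ^ e) ∧ k * q ≤ 2 * p * N ∧
      ((p = 1 ∧ q = 1) ∨ (p.Prime ∧ p ≠ 2 ∧ 2 * m - 1 < q ∧ ∃ e, 1 ≤ e ∧ q = p ^ e)) := by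
    rcases hp with hp | ⟨hp, hodd⟩
    · refine ⟨1, ⟨0, by rw [hp]; simp⟩, ?_, Or.inl ⟨hp, rfl⟩⟩
      rw [hp]
      have : k * 1 ≤ k * m := Nat.mul_le_mul_left k hm1
      omega
    · have hp2 := hp.two_le
      obtain ⟨e, he⟩ : ∃ e, e = Nat.log p (2 * m - 1) + 1 := ⟨_, rfl⟩
      refine ⟨p ^ e, ⟨e, rfl⟩, ?_, Or.inr ⟨hp, hodd, ?_, e, by omega, rfl⟩⟩
      · have h1 : p ^ Nat.log p (2 * m - 1) ≤ 2 * m - 1 := Nat.pow_log_le_self p (by omega)
        have h2 : p ^ e ≤ p * (2 * m) := by
          rw [he, pow_succ, Nat.mul_comm]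
          exact Nat.mul_le_mul_left p (h1.trans (by omega))
        calc k * p ^ e ≤ k * (p * (2 * m)) := Nat.mul_le_mul_left k h2
          _ = 2 * p * (k * m) := by ring
          _ ≤ 2 * p * N := Nat.mul_le_mul_left _ hkm
      · rw [he]
        exact Nat.lt_pow_succ_log_self (by omega) _
  refine ⟨q, hq1, hq2, fun g => ?_⟩
  obtain ⟨S, hS1, _, hS2⟩ := C.good_all (k := k) (s := 2 * m - 1) (by omega) ht (by omega) hs
    (by omega) hrs hq3 hsupp g
  refine ⟨S, ?_, hS2⟩
  calc k * S.card ≤ k * (2 * m) := Nat.mul_le_mul_left _ (by omega)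
    _ = 2 * (k * m) := by ring
    _ ≤ 2 * N := Nat.mul_le_mul_left _ hkm

end Circ

end Pool.Agent.J6H7.SM
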