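import Pool.Agent.J6H7.SM.Move

/-!
# Counting wires modulo a prime
-/

set_option autoImplicit false
set_option linter.unusedSectionVars false

namespace Pool.Agent.J6H7.SM

open Equiv Equiv.Perm Pool.Agent.J6H7.SC

variable {N : ℕ} {W : Type}

open Classical in
/-- the multiplicity of a function -/
noncomputable def mul (A : Finset W) (v : W → BF N) (f : BF N) : ℕ :=
  (A.filter fun c => v c = f).card

open Classical in
/-- the number of the wires with the value one -/
noncomputable def cnt (A : Finset W) (v : W → BF N) (x : Fin N → Bool) : ℕ :=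
  (A.filter fun c => v c x = true).card

theorem cnt_eq_sum (A : Finset W) (v : W → BF N) (x : Fin N → Bool) :
    cnt A v x = ∑ f : BF N, if f x = true then mul A v f else 0 := by
  classical
  unfold cnt
  rw [Finset.card_eq_sum_card_fiberwise (f := v) (t := Finset.univ) (fun _ _ => Finset.mem_univ _)]
  refine Finset.sum_congr rfl fun f _ => ?_
  rw [Finset.filter_filter]
  split_ifs with h
  · unfold mul
    congr 1
    refine Finset.filter_congr fun c _ => ?_
    constructor
    · exact fun h1 => h1.2
    · exact fun h1 => ⟨by rw [h1]; exact h, h1⟩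
  · rw [Finset.card_eq_zero, Finset.filter_eq_empty_iff]
    rintro c _ ⟨h1, h2⟩
    exact h (by rw [← h2]; exact h1)

/-- the count is invariant if the multiplicities are -/
theorem cnt_comp (A : Finset W) (v : W → BF N) (γ : Perm (Fin N))
    (h : ∀ f, mul A v (move γ f) = mul A v f) (x : Fin N → Bool) :
    cnt A v (x ∘ γ) = cnt A v x := by
  classical
  rw [cnt_eq_sum, cnt_eq_sum]
  let e : BF N ≃ BF N :=
    ⟨move γ, move γ⁻¹, fun f => by rw [← move_mul, inv_mul_cancel, move_one],
      fun f => by rw [← move_mul, mul_inv_cancel, move_one]⟩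
  refine Fintype.sum_equiv e _ _ fun f => ?_
  change (if f (x ∘ γ) = true then mul A v f else 0) =
    if (move γ f) x = true then mul A v (move γ f) else 0
  rw [h f]
  rfl

/-- the number of the wires with the value one modulo a prime -/
theorem cnt_modEq {p e : ℕ} (hp : p.Prime) (A : Finset W) (v : W → BF N) (σ : Perm (Fin N))
    (hσ : σ ^ (p ^ e) = 1) (hn : ∀ f, mul A v (move σ f) = mul A v f) {x y : Fin N → Bool}
    (hx : x ∘ σ = x) (hy : y ∘ σ = y)
    (hfix : ∀ c ∈ A, move σ (v c) = v c → v c x = v c y) :
    cnt A v x ≡ cnt A v y [MOD p] := by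
  classical
  have : Fact p.Prime := ⟨hp⟩
  obtain ⟨M, hM⟩ : ∃ M, M = A.card + 1 := ⟨_, rfl⟩
  have hmul : ∀ f, mul A v f < M := by
    intro f
    rw [hM]
    exact Nat.lt_succ_of_le (Finset.card_filter_le _ _)
  let Q : (Fin N → Bool) → Finset (BF N × Fin M) := fun z =>
    Finset.univ.filter fun q => q.1 z = true ∧ (q.2 : ℕ) < mul A v q.1
  have hQ : ∀ z, (Q z).card = cnt A v z := by
    intro z
    rw [cnt_eq_sum]
    rw [Finset.card_eq_sum_card_fiberwise (f := Prod.fst) (t := Finset.univ)
      (fun _ _ => Finset.mem_univ _)]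
    refine Finset.sum_congr rfl fun f _ => ?_
    split_ifs with h
    · have : ((Q z).filter fun q => q.1 = f) =
          (Finset.univ.filter fun i : Fin M => (i : ℕ) < mul A v f).map
            ⟨fun i => (f, i), fun i j hij => (Prod.mk.inj hij).2⟩ := by
        ext q
        simp only [Q, Finset.mem_filter, Finset.mem_univ, true_and, Finset.mem_map]
        constructor
        · rintro ⟨⟨_, h2⟩, h3⟩
          exact ⟨q.2, by rw [← h3]; exact h2, Prod.ext h3.symm rfl⟩
        · rintro ⟨i, hi, rfl⟩
          exact ⟨⟨h, hi⟩, rfl⟩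
      rw [this, Finset.card_map]
      have h2 := hmul f
      rw [Fin.card_filter_val_lt]
      omega
    · rw [Finset.card_eq_zero, Finset.filter_eq_empty_iff]
      rintro q hq hqf
      simp only [Q, Finset.mem_filter, Finset.mem_univ, true_and] at hq
      exact h (by rw [← hqf]; exact hq.1)
  have hT : ∀ z : Fin N → Bool, z ∘ σ = z → ∀ q ∈ Q z, ((move σ q.1, q.2) : BF N × Fin M) ∈ Q z := by
    intro z hz q hq
    simp only [Q, Finset.mem_filter, Finset.mem_univ, true_and] at hq ⊢
    refine ⟨?_, ?_⟩
    · change q.1 (z ∘ σ) = true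
      rw [hz]
      exact hq.1
    · rw [hn]
      exact hq.2
  have key : ∀ z : Fin N → Bool, z ∘ σ = z →
      cnt A v z ≡ ((Q z).filter fun q => move σ q.1 = q.1).card [MOD p] := by
    intro z hz
    let T : Function.End (Q z) := fun q => ⟨(move σ q.1.1, q.1.2), hT z hz q.1 q.2⟩
    have hiter : ∀ (k : ℕ) (q : Q z), ((T^[k] q : Q z) : BF N × Fin M) =
        (move (σ ^ k) q.1.1, q.1.2) := by
      intro k
      induction k with
      | zero => intro q; rfl
      | succ k ih =>
        intro q
        rw [Function.iterate_succ_apply']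
        change (move σ ((T^[k] q : Q z) : BF N × Fin M).1, ((T^[k] q : Q z) : BF N × Fin M).2) = _
        rw [ih q, ← move_mul, ← pow_succ']
    have hpow : T ^ (p ^ e) = 1 := by
      funext q
      change (T^[p ^ e]) q = q
      refine Subtype.ext ?_
      rw [hiter, hσ, move_one]
    have h1 := Equiv.Perm.card_fixedPoints_modEq (p := p) (n := e) hpow
    rw [Fintype.card_coe, hQ z] at h1
    have h2 : Fintype.card (Function.fixedPoints T) =
        ((Q z).filter fun q => move σ q.1 = q.1).card := by
      rw [← Fintype.card_coe]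
      refine Fintype.card_congr ?_
      refine ⟨fun q => ⟨q.1.1, ?_⟩, fun q => ⟨⟨q.1, (Finset.mem_filter.1 q.2).1⟩, ?_⟩, ?_, ?_⟩
      · rw [Finset.mem_filter]
        refine ⟨q.1.2, ?_⟩
        have h3 : T q.1 = q.1 := q.2
        have h4 := congrArg (fun w : Q z => (w : BF N × Fin M).1) h3
        exact h4
      · have h3 := (Finset.mem_filter.1 q.2).2
        change T _ = _
        refine Subtype.ext ?_
        exact Prod.ext h3 rfl
      · intro q
        rfl
      · intro q
        rfl
    rw [h2] at h1
    exact h1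
  have heq : ((Q x).filter fun q => move σ q.1 = q.1) = ((Q y).filter fun q => move σ q.1 = q.1) := by
    ext q
    simp only [Q, Finset.mem_filter, Finset.mem_univ, true_and]
    have h1 : move σ q.1 = q.1 → (q.2 : ℕ) < mul A v q.1 → q.1 x = q.1 y := by
      intro h2 h3
      have h4 : 0 < mul A v q.1 := by omega
      obtain ⟨c, hc⟩ := Finset.card_pos.1 h4
      rw [Finset.mem_filter] at hc
      have := hfix c hc.1 (by rw [hc.2]; exact h2)
      rwa [hc.2] at this
    constructor
    · rintro ⟨⟨h2, h3⟩, h4⟩
      exact ⟨⟨(h1 h4 h3).symm.trans h2, h3⟩, h4⟩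
    · rintro ⟨⟨h2, h3⟩, h4⟩
      exact ⟨⟨(h1 h4 h3).trans h2, h3⟩, h4⟩
  have h1 := key x hx
  have h2 := key y hy
  rw [heq] at h1
  exact h1.trans h2.symm

end Pool.Agent.J6H7.SM
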