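import Pool.Agent.J6H7.SM.Defs
import Pool.Agent.J6H7.SC.Move

/-!
# Moving functions, cycles on blocks
-/

set_option autoImplicit false
set_option linter.unusedSectionVars false

namespace Pool.Agent.J6H7.SM

open Equiv Equiv.Perm Pool.Agent.Y600.Circ Pool.Agent.J6H7.GX Pool.Agent.J6H7.SC

variable {N : ℕ}

/-- permuting the input bits of functions with multiplicities -/
def mv (σ : Perm (Fin N)) (z : BF N × ℕ) : BF N × ℕ := (move σ z.1, z.2)

theorem mv_image_one (F : Set (BF N × ℕ)) : mv 1 '' F = F := by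
  have : (mv 1 : BF N × ℕ → BF N × ℕ) = id := rfl
  rw [this, Set.image_id]

theorem mv_image_mul (σ τ : Perm (Fin N)) (F : Set (BF N × ℕ)) :
    mv (σ * τ) '' F = mv σ '' (mv τ '' F) := by
  rw [← Set.image_comp]
  rfl

/-- the stabilizer of a family of functions with multiplicities -/
def stabM (F : Set (BF N × ℕ)) : Subgroup (Perm (Fin N)) where
  carrier := {σ | mv σ '' F = F}
  mul_mem' := by
    intro a b ha hb
    change mv a '' F = F at ha
    change mv b '' F = F at hb
    change mv (a * b) '' F = F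
    rw [mv_image_mul, hb, ha]
  one_mem' := mv_image_one F
  inv_mem' := by
    intro a ha
    change mv a '' F = F at ha
    change mv a⁻¹ '' F = F
    conv_lhs => rw [← ha]
    rw [← mv_image_mul, inv_mul_cancel, mv_image_one]

/-- supports of families of functions with multiplicities -/
def SuppM (F : Set (BF N × ℕ)) (S : Finset (Fin N)) : Prop :=
  ∀ γ : Perm (Fin N), sign γ = 1 → (∀ s ∈ S, γ s = s) → mv γ '' F = F

/-- Existence of supports. -/
theorem exists_suppM {m : ℕ} (hm : 1 ≤ m) (hN : 10 * m ≤ N) (F : Set (BF N × ℕ))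
    (Z : Set (Set (BF N × ℕ))) (hfin : Z.Finite) (hZ : ∀ σ : Perm (Fin N), mv σ '' F ∈ Z)
    (hcard : Z.ncard < 5 ^ m) :
    ∃ S : Finset (Fin N), S.card < 2 * m ∧ SuppM F S := by
  classical
  let _ : Fintype Z := hfin.fintype
  obtain ⟨S, hS1, hS2⟩ := exists_support' (W := Fin N) (H := stabM F) (Z := Z) (N := 5) (m := m)
    (le_refl 5) hm (by rw [Fintype.card_fin]; omega) (fun σ => ⟨mv σ '' F, hZ σ⟩)
    (fun γ γ' h => by
      have h1 : mv γ '' F = mv γ' '' F := congrArg Subtype.val h
      change mv (γ⁻¹ * γ') '' F = F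
      rw [mv_image_mul, ← h1, ← mv_image_mul, inv_mul_cancel, mv_image_one])
    (by rwa [← Nat.card_eq_fintype_card])
  exact ⟨S, hS1, fun γ h1 h2 => hS2 γ h1 h2⟩

/-- the functions without the multiplicities -/
theorem SuppM.fst {F : Set (BF N × ℕ)} {S : Finset (Fin N)} (h : SuppM F S) :
    Supp (Prod.fst '' F) S := by
  intro γ h1 h2
  have h3 := h γ h1 h2
  conv_rhs => rw [← h3]
  rw [← Set.image_comp, ← Set.image_comp]
  rfl

/-- A cycle on a block. -/
theorem exists_cycle {p e : ℕ} (hp : p.Prime) (hodd : p ≠ 2) (he : 1 ≤ e) (B : Finset (Fin N))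
    (hB : B.card = p ^ e) :
    ∃ σ : Perm (Fin N), sign σ = 1 ∧ σ ^ (p ^ e) = 1 ∧ (∀ i ∉ B, σ i = i) ∧ (∀ i ∈ B, σ i ∈ B) ∧
      ∀ i ∈ B, ∀ j ∈ B, ∃ k : ℕ, (σ ^ k) i = j := by
  classical
  have hp3 : 3 ≤ p := by
    have := hp.two_le
    omega
  have hq3 : 3 ≤ p ^ e := hp3.trans (Nat.le_self_pow (by omega) _)
  have hqodd : Odd (p ^ e) := (hp.odd_of_ne_two hodd).pow
  obtain ⟨n, hn⟩ : ∃ n, p ^ e = n + 2 := ⟨p ^ e - 2, by omega⟩
  have hc : Fintype.card {i // i ∈ B} = n + 2 := by
    rw [Fintype.card_coe, hB, hn]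
  let f : Fin (n + 2) ≃ {i // i ∈ B} := (Fintype.equivFinOfCardEq hc).symm
  refine ⟨(finRotate (n + 2)).extendDomain f, ?_, ?_, ?_, ?_, ?_⟩
  · rw [sign_extendDomain, sign_finRotate]
    have : Even (n + 2 - 1) := by
      rw [hn] at hqodd
      rcases hqodd with ⟨k, hk⟩
      exact ⟨k, by omega⟩
    exact this.neg_one_pow
  · rw [← extendDomain_pow, hn]
    have h1 : (finRotate (n + 2)) ^ (n + 2) = 1 := by
      have h2 := isCycle_finRotate (n := n)
      have h3 := pow_orderOf_eq_one (finRotate (n + 2))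
      rw [h2.orderOf, support_finRotate, Finset.card_univ, Fintype.card_fin] at h3
      exact h3
    rw [h1, extendDomain_one]
  · intro i hi
    exact extendDomain_apply_not_subtype _ f hi
  · intro i hi
    have : i = (f (f.symm ⟨i, hi⟩) : Fin N) := by simp
    rw [this, extendDomain_apply_image]
    exact (f _).2
  · intro i hi j hj
    have ei : i = (f (f.symm ⟨i, hi⟩) : Fin N) := by simp
    have ej : j = (f (f.symm ⟨j, hj⟩) : Fin N) := by simp
    have hmem : ∀ a : Fin (n + 2), finRotate (n + 2) a ≠ a := by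
      intro a
      have : a ∈ support (finRotate (n + 2)) := by
        rw [support_finRotate]
        exact Finset.mem_univ _
      exact mem_support.1 this
    obtain ⟨k, hk⟩ := (isCycle_finRotate (n := n)).exists_pow_eq (hmem (f.symm ⟨i, hi⟩))
      (hmem (f.symm ⟨j, hj⟩))
    refine ⟨k, ?_⟩
    rw [← extendDomain_pow]
    conv_lhs => rw [ei]
    rw [extendDomain_apply_image, hk, ← ej]

/-- A function with a support `T` which is invariant under a cycle on a block `B` that is larger
than `T` has the support `T \ B`. -/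
theorem supp_sdiff {f : BF N} {T B : Finset (Fin N)} (hT : Supp {f} T) {σ : Perm (Fin N)}
    (hcyc : ∀ i ∈ B, ∀ j ∈ B, ∃ k : ℕ, (σ ^ k) i = j)
    (hσf : move σ f = f) (hB : T.card < B.card) (hN : 2 * T.card + 3 ≤ N) :
    Supp {f} (T \ B) := by
  classical
  have hTf : ∀ γ : Perm (Fin N), sign γ = 1 → (∀ s ∈ T, γ s = s) → γ ∈ stab ({f} : Set (BF N)) :=
    fun γ h1 h2 => hT γ h1 h2
  have hσ : σ ∈ stab ({f} : Set (BF N)) := mem_stab_singleton.2 hσf
  -- the points outside `T` are linked
  have hlink : ∀ x y, x ∉ T → y ∉ T → Lk (stab ({f} : Set (BF N))) x y := by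
    intro x y hx hy
    by_cases hxy : x = y
    · exact Or.inl hxy
    obtain ⟨z, hz⟩ : ∃ z, z ∉ T ∪ {x, y} := by
      by_contra hcon
      push Not at hcon
      have h2 : T ∪ {x, y} = Finset.univ := Finset.eq_univ_iff_forall.2 hcon
      have h3 := congrArg Finset.card h2
      rw [Finset.card_univ, Fintype.card_fin] at h3
      have h4 := Finset.card_union_le T {x, y}
      have h5 := Finset.card_le_two (a := x) (b := y)
      omega
    simp only [Finset.mem_union, Finset.mem_insert, Finset.mem_singleton, not_or] at hz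
    obtain ⟨hz1, hz2, hz3⟩ := hz
    refine Or.inr ⟨z, hz2, hz3, hTf _ (sign_c3 hxy (Ne.symm hz3)) fun s hs => ?_⟩
    exact c3_of_ne (fun h => hx (h ▸ hs)) (fun h => hy (h ▸ hs)) (fun h => hz1 (h ▸ hs))
  have hconj : ∀ x y, Lk (stab ({f} : Set (BF N))) x y →
      Lk (stab ({f} : Set (BF N))) (σ x) (σ y) := by
    rintro x y (h | ⟨z, h1, h2, h3⟩)
    · exact Or.inl (by rw [h])
    · refine Or.inr ⟨σ z, fun h => h1 (σ.injective h), fun h => h2 (σ.injective h), ?_⟩
      rw [← c3_conj]
      exact mem_conj hσ h3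
  -- a point outside `T` which stays outside `T`
  obtain ⟨w, hw1, hw2⟩ : ∃ w, w ∉ T ∧ σ w ∉ T := by
    by_contra hcon
    push Not at hcon
    have h2 : (Finset.univ : Finset (Fin N)) ⊆ T ∪ T.image σ.symm := by
      intro w _
      rw [Finset.mem_union]
      by_cases hw : w ∈ T
      · exact Or.inl hw
      · exact Or.inr (Finset.mem_image.2 ⟨σ w, hcon w hw, by simp⟩)
    have h3 := Finset.card_le_card h2
    rw [Finset.card_univ, Fintype.card_fin] at h3
    have h4 := Finset.card_union_le T (T.image σ.symm)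
    have h5 := Finset.card_image_le (s := T) (f := σ.symm)
    omega
  obtain ⟨a, haB, haT⟩ : ∃ a ∈ B, a ∉ T := by
    by_contra hcon
    push Not at hcon
    have := Finset.card_le_card (show B ⊆ T from hcon)
    omega
  have hpow : ∀ k : ℕ, Lk (stab ({f} : Set (BF N))) a ((σ ^ k) a) := by
    intro k
    induction k with
    | zero => exact Or.inl rfl
    | succ k ih =>
      have h1 : (σ ^ (k + 1)) a = σ ((σ ^ k) a) := by rw [pow_succ', mul_apply]
      rw [h1]
      -- `a ~ σ w ~ σ (σ ^ k a)`
      have h2 : Lk (stab ({f} : Set (BF N))) w ((σ ^ k) a) := (hlink w a hw1 haT).trans ih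
      exact (hlink a (σ w) haT hw2).trans (hconj _ _ h2)
  have hall : ∀ x, x ∉ T \ B → Lk (stab ({f} : Set (BF N))) a x := by
    intro x hx
    by_cases hxT : x ∈ T
    · have hxB : x ∈ B := by
        by_contra h
        exact hx (Finset.mem_sdiff.2 ⟨hxT, h⟩)
      obtain ⟨k, hk⟩ := hcyc a haB x hxB
      rw [← hk]
      exact hpow k
    · exact hlink a x haT hxT
  intro γ hγ hγS
  refine mem_of_class (H := stab ({f} : Set (BF N))) (T \ B)ᶜ (fun x hx y hy => ?_) hγ
    (fun x hx => ?_)
  · rw [Finset.mem_compl] at hx hy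
    exact (hall x hx).symm.trans (hall y hy)
  · rw [Finset.mem_compl, not_not] at hx
    exact hγS x hx

/-- Two inputs with the same number of ones which agree on `S`. -/
theorem exists_even_eq (S : Finset (Fin N)) {x y : Fin N → Bool} (hxy : ∀ i ∈ S, x i = y i)
    (hcard : ones x = ones y) (h3 : S.card + 3 ≤ N) :
    ∃ γ : Perm (Fin N), sign γ = 1 ∧ (∀ i ∈ S, γ i = i) ∧ y ∘ γ = x := by
  classical
  have hones : ∀ z : Fin N → Bool, ones z = (S.filter fun i => z i = true).card +
      (Finset.univ.filter fun i => i ∉ S ∧ z i = true).card := by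
    intro z
    unfold ones
    rw [← Finset.card_union_of_disjoint]
    · congr 1
      ext i
      simp only [Finset.mem_filter, Finset.mem_univ, true_and, Finset.mem_union]
      tauto
    · rw [Finset.disjoint_left]
      intro i hi hi'
      rw [Finset.mem_filter] at hi hi'
      exact hi'.2.1 hi.1
  have hS : (S.filter fun i => x i = true) = (S.filter fun i => y i = true) :=
    Finset.filter_congr fun i hi => by rw [hxy i hi]
  have h1 : (Finset.univ.filter fun i => i ∉ S ∧ x i = true).card =
      (Finset.univ.filter fun i => i ∉ S ∧ y i = true).card := by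
    have e1 := hones x
    have e2 := hones y
    rw [hS] at e1
    omega
  have h0 : (Finset.univ.filter fun i => i ∉ S ∧ x i = false).card =
      (Finset.univ.filter fun i => i ∉ S ∧ y i = false).card := by
    have htot : ∀ z : Fin N → Bool, (Finset.univ.filter fun i => i ∉ S ∧ z i = true).card +
        (Finset.univ.filter fun i => i ∉ S ∧ z i = false).card =
        (Finset.univ.filter fun i : Fin N => i ∉ S).card := by
      intro z
      rw [← Finset.card_union_of_disjoint]
      · congr 1
        ext i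
        simp only [Finset.mem_filter, Finset.mem_univ, true_and, Finset.mem_union]
        cases z i <;> simp
      · rw [Finset.disjoint_left]
        intro i hi hi'
        rw [Finset.mem_filter] at hi hi'
        rw [hi.2.2] at hi'
        exact absurd hi'.2.2 (by simp)
    have e1 := htot x
    have e2 := htot y
    omega
  have hb : ∀ b : Bool, (Finset.univ.filter fun i => i ∉ S ∧ x i = b).card =
      (Finset.univ.filter fun i => i ∉ S ∧ y i = b).card := by
    intro b
    cases b
    · exact h0
    · exact h1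
  let e : ∀ b : Bool, (Finset.univ.filter fun i => i ∉ S ∧ x i = b) ≃
      (Finset.univ.filter fun i => i ∉ S ∧ y i = b) := fun b =>
    Finset.equivOfCardEq (hb b)
  have hmem : ∀ i, i ∉ S → i ∈ Finset.univ.filter fun j => j ∉ S ∧ x j = x i := by
    intro i hi
    rw [Finset.mem_filter]
    exact ⟨Finset.mem_univ _, hi, rfl⟩
  obtain ⟨f, hf⟩ : ∃ f : Fin N → Fin N, ∀ i, (i ∈ S → f i = i) ∧
      ∀ hi : i ∉ S, f i = (e (x i) ⟨i, hmem i hi⟩ : Fin N) := by
    refine ⟨fun i => if hi : i ∈ S then i else (e (x i) ⟨i, hmem i hi⟩ : Fin N), fun i => ?_⟩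
    exact ⟨fun hi => dif_pos hi, fun hi => dif_neg hi⟩
  have hfout : ∀ i, i ∉ S → f i ∉ S ∧ y (f i) = x i := by
    intro i hi
    rw [(hf i).2 hi]
    have := (e (x i) ⟨i, hmem i hi⟩).2
    rw [Finset.mem_filter] at this
    exact this.2
  have hinj : Function.Injective f := by
    intro i j hij
    by_cases hi : i ∈ S
    · by_cases hj : j ∈ S
      · rwa [(hf i).1 hi, (hf j).1 hj] at hij
      · exfalso
        apply (hfout j hj).1
        rw [← hij, (hf i).1 hi]
        exact hi
    · by_cases hj : j ∈ S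
      · exfalso
        apply (hfout i hi).1
        rw [hij, (hf j).1 hj]
        exact hj
      · have hx : x i = x j := by
          rw [← (hfout i hi).2, ← (hfout j hj).2, hij]
        rw [(hf i).2 hi, (hf j).2 hj] at hij
        have key : ∀ (b : Bool) (hb1 : x i = b) (hb2 : x j = b)
            (hi' : i ∈ Finset.univ.filter fun k => k ∉ S ∧ x k = b)
            (hj' : j ∈ Finset.univ.filter fun k => k ∉ S ∧ x k = b),
            (e b ⟨i, hi'⟩ : Fin N) = (e b ⟨j, hj'⟩ : Fin N) → i = j := by
          intro b _ _ hi' hj' h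
          exact congrArg Subtype.val ((e b).injective (Subtype.ext h))
        have hj2 : j ∈ Finset.univ.filter fun k => k ∉ S ∧ x k = x i := by
          rw [Finset.mem_filter]
          exact ⟨Finset.mem_univ _, hj, hx.symm⟩
        have key2 : ∀ (b : Bool) (_ : x j = b)
            (hj' : j ∈ Finset.univ.filter fun k => k ∉ S ∧ x k = b),
            (e (x j) ⟨j, hmem j hj⟩ : Fin N) = (e b ⟨j, hj'⟩ : Fin N) := by
          intro b h hj'
          subst h
          rfl
        exact key (x i) rfl hx.symm (hmem i hi) hj2 (hij.trans (key2 (x i) hx.symm hj2))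
  let σ : Perm (Fin N) := Equiv.ofBijective f (Finite.injective_iff_bijective.1 hinj)
  have hσ : ∀ i, σ i = f i := fun i => rfl
  have hσS : ∀ i ∈ S, σ i = i := fun i hi => (hf i).1 hi
  have hσx : ∀ i, y (σ i) = x i := by
    intro i
    by_cases hi : i ∈ S
    · rw [hσS i hi]
      exact (hxy i hi).symm
    · exact (hfout i hi).2
  rcases Int.units_eq_one_or (sign σ) with hs | hs
  · exact ⟨σ, hs, hσS, funext hσx⟩
  · -- two points outside `S` with the same value
    obtain ⟨a, ha, b, hb', hab, hxab⟩ : ∃ a ∈ (Sᶜ : Finset (Fin N)), ∃ b ∈ (Sᶜ : Finset (Fin N)),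
        a ≠ b ∧ x a = x b := by
      refine Finset.exists_ne_map_eq_of_card_lt_of_maps_to (t := (Finset.univ : Finset Bool)) ?_
        (fun _ _ => Finset.mem_univ _)
      rw [Finset.card_compl, Fintype.card_fin, Finset.card_univ, Fintype.card_bool]
      omega
    rw [Finset.mem_compl] at ha hb'
    refine ⟨σ * swap a b, by rw [Perm.sign_mul, hs, sign_swap hab]; rfl, fun i hi => ?_, ?_⟩
    · have e1 : i ≠ a := fun h => ha (h ▸ hi)
      have e2 : i ≠ b := fun h => hb' (h ▸ hi)
      rw [mul_apply, swap_apply_of_ne_of_ne e1 e2]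
      exact hσS i hi
    · funext i
      change y ((σ * swap a b) i) = x i
      rw [mul_apply, hσx]
      by_cases e1 : i = a
      · rw [e1, swap_apply_left, hxab]
      by_cases e2 : i = b
      · rw [e2, swap_apply_right, hxab]
      rw [swap_apply_of_ne_of_ne e1 e2]

end Pool.Agent.J6H7.SM
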