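import Pool.Agent.J6H7.SM.Main

/-!
# Circuits with many automorphisms have few transforms
-/

set_option autoImplicit false

namespace Pool.Agent.J6H7.SM

open Equiv Equiv.Perm Pool.Agent.J6H7.SC

variable {N t r p : ℕ} {I : Type}

namespace Circ

variable {C : Circ N t r p I} {σ : Perm (Fin N)} {π : Perm I}

theorem map_symm_map (c : Fin N ⊕ I) : Sum.map ⇑(σ⁻¹) ⇑(π⁻¹) (Sum.map σ π c) = c := by
  rcases c with i | h <;> simp

theorem map_map_symm (c : Fin N ⊕ I) : Sum.map σ π (Sum.map ⇑(σ⁻¹) ⇑(π⁻¹) c) = c := by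
  rcases c with i | h <;> simp

theorem IsAut.inv (h : C.IsAut σ π) : C.IsAut σ⁻¹ π⁻¹ where
  ch g c := by
    rw [← h.ch (π⁻¹ g) (Sum.map ⇑(σ⁻¹) ⇑(π⁻¹) c), map_map_symm]
    simp
  fn g v := by
    have h1 := h.fn (π⁻¹ g) (v ∘ Sum.map ⇑(σ⁻¹) ⇑(π⁻¹))
    have h2 : (v ∘ Sum.map ⇑(σ⁻¹) ⇑(π⁻¹)) ∘ Sum.map ⇑σ ⇑π = v := by
      funext c
      simp only [Function.comp_apply, map_symm_map]
    rw [h2] at h1
    rw [← h1]
    simp

theorem IsAut.eval (h : C.IsAut σ π) (x : Fin N → Bool) (g : I) :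
    C.eval x (π g) = C.eval (x ∘ σ) g := by
  induction hr : C.rank g using Nat.strong_induction_on generalizing g with
  | _ n ih =>
    rw [eval_eq, eval_eq, h.fn]
    refine C.dep g _ _ fun c hc => ?_
    rcases c with i | g'
    · rfl
    · exact ih (C.rank g') (hr ▸ C.rank_lt g g' hc) g' rfl

theorem IsAut.val (h : C.IsAut σ π) (c : Fin N ⊕ I) :
    C.val (Sum.map σ π c) = move σ (C.val c) := by
  funext x
  rcases c with i | g
  · rfl
  · exact h.eval x g

theorem IsAut.certified (h : C.IsAut σ π) (g : I) (b : Bool)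
    (hb : Certified (C.ch g) (C.fn g) t b) : Certified (C.ch (π g)) (C.fn (π g)) t b := by
  classical
  intro v hv
  rw [h.fn] at hv
  obtain ⟨B, hB1, hB2, hB3⟩ := hb _ hv
  refine ⟨B.image (Sum.map σ π), fun c hc => ?_, Finset.card_image_le.trans hB2, fun w hw => ?_⟩
  · obtain ⟨c', hc', rfl⟩ := Finset.mem_image.1 hc
    exact (h.ch g c').2 (hB1 c' hc')
  · rw [h.fn]
    exact hB3 _ fun c hc => hw _ (Finset.mem_image_of_mem _ hc)

theorem IsAut.certified_iff (h : C.IsAut σ π) (g : I) (b : Bool) :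
    Certified (C.ch (π g)) (C.fn (π g)) t b ↔ Certified (C.ch g) (C.fn g) t b := by
  refine ⟨fun hb => ?_, h.certified g b⟩
  have h1 := h.inv.certified (π g) b hb
  simpa using h1

theorem move_inj {f f' : BF N} (h : move σ f = move σ f') : f = f' := by
  have h1 := congrArg (move σ⁻¹) h
  rwa [← move_mul, ← move_mul, inv_mul_cancel, move_one, move_one] at h1

theorem IsAut.mult (h : C.IsAut σ π) (g : I) (c : Fin N ⊕ I) :
    {c' | c' ∈ C.ch (π g) ∧ C.val c' = C.val (Sum.map σ π c)}.ncard =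
      {c' | c' ∈ C.ch g ∧ C.val c' = C.val c}.ncard := by
  have h1 : {c' | c' ∈ C.ch (π g) ∧ C.val c' = C.val (Sum.map σ π c)} =
      Sum.map σ π '' {c' | c' ∈ C.ch g ∧ C.val c' = C.val c} := by
    ext c'
    constructor
    · rintro ⟨h2, h3⟩
      refine ⟨Sum.map ⇑(σ⁻¹) ⇑(π⁻¹) c', ⟨?_, ?_⟩, map_map_symm c'⟩
      · rw [← h.ch, map_map_symm]
        exact h2
      · rw [h.val] at h3
        apply move_inj (σ := σ)
        rw [← h3, ← h.val, map_map_symm]
    · rintro ⟨c'', ⟨h2, h3⟩, rfl⟩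
      refine ⟨(h.ch g c'').2 h2, ?_⟩
      rw [h.val, h.val, h3]
  rw [h1]
  refine Set.ncard_image_of_injective _ fun a b hab => ?_
  have h2 := congrArg (Sum.map ⇑(σ⁻¹) ⇑(π⁻¹)) hab
  rwa [map_symm_map, map_symm_map] at h2

theorem IsAut.trace (h : C.IsAut σ π) (g : I) : C.trace (π g) = mv σ '' C.trace g := by
  classical
  have hiff : (∃ b, Certified (C.ch (π g)) (C.fn (π g)) t b) ↔
      ∃ b, Certified (C.ch g) (C.fn g) t b :=
    ⟨fun ⟨b, hb⟩ => ⟨b, (h.certified_iff g b).1 hb⟩, fun ⟨b, hb⟩ => ⟨b, (h.certified_iff g b).2 hb⟩⟩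
  unfold Circ.trace
  by_cases hc : ∃ b, Certified (C.ch g) (C.fn g) t b
  · rw [if_pos hc, if_pos (hiff.2 hc), Set.image_singleton, Set.singleton_eq_singleton_iff]
    refine Prod.ext ?_ rfl
    funext x
    exact h.eval x g
  · rw [if_neg hc, if_neg (fun h' => hc (hiff.1 h')), ← Set.image_comp]
    ext z
    constructor
    · rintro ⟨c, hc', rfl⟩
      refine ⟨Sum.map ⇑(σ⁻¹) ⇑(π⁻¹) c, ?_, ?_⟩
      · rw [← h.ch, map_map_symm]
        exact hc'
      · have h1 := h.mult g (Sum.map ⇑(σ⁻¹) ⇑(π⁻¹) c)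
        rw [map_map_symm] at h1
        refine Prod.ext ?_ ?_
        · change move σ (C.val _) = C.val c
          rw [← h.val, map_map_symm]
        · exact h1.symm
    · rintro ⟨c, hc', rfl⟩
      refine ⟨Sum.map σ π c, (h.ch g c).2 hc', ?_⟩
      refine Prod.ext ?_ ?_
      · exact h.val c
      · exact h.mult g c

/-- The gates of circuits with many automorphisms have few transforms. -/
theorem card_transforms_mul_le [Finite I] (C : Circ N t r p I) (g : I) :
    (C.transforms g).ncard * C.symmetries.ncard ≤ Nat.card I * N.factorial := by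
  classical
  have h1 : ∀ F : C.transforms g, ∃ a : Perm (Fin N), F.1 = mv a '' C.trace g := fun F => F.2
  choose b hb using h1
  have h2 : ∀ σ : C.symmetries, ∃ π : Perm I, C.IsAut σ.1 π := fun σ => σ.2
  choose a ha using h2
  let Φ : C.transforms g × C.symmetries → I × Perm (Fin N) :=
    fun q => (a q.2 g, b q.1 * (q.2 : Perm (Fin N))⁻¹)
  have hΦ : ∀ q, mv (Φ q).2 '' C.trace (Φ q).1 = q.1.1 := by
    intro q
    change mv (b q.1 * (q.2 : Perm (Fin N))⁻¹) '' C.trace (a q.2 g) = q.1.1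
    rw [(ha q.2).trace, ← mv_image_mul, mul_assoc, inv_mul_cancel, mul_one]
    exact (hb q.1).symm
  have hinj : Function.Injective Φ := by
    intro q q' hqq
    have e1 : q.1 = q'.1 := Subtype.ext (by rw [← hΦ q, ← hΦ q', hqq])
    have e2 : b q.1 * (q.2 : Perm (Fin N))⁻¹ = b q'.1 * (q'.2 : Perm (Fin N))⁻¹ :=
      congrArg Prod.snd hqq
    rw [e1, mul_right_inj, inv_inj] at e2
    exact Prod.ext e1 (Subtype.ext e2)
  have h3 := Nat.card_le_card_of_injective Φ hinj
  rw [Nat.card_prod, Nat.card_prod, Nat.card_perm, Nat.card_fin] at h3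
  exact h3

theorem isAut_one (C : Circ N t r p I) : C.IsAut 1 1 where
  ch g c := by
    rcases c with i | h
    · exact Iff.rfl
    · exact Iff.rfl
  fn g v := by
    congr 1
    funext c
    rcases c with i | h
    · rfl
    · rfl

theorem transforms_le_of_symmetries [Finite I] (C : Circ N t r p I) {e : ℕ}
    (h : (Nat.card I * N.factorial) ^ e ≤ 2 ^ N * C.symmetries.ncard ^ e) (g : I) :
    (C.transforms g).ncard ^ e ≤ 2 ^ N := by
  have hpos : 0 < C.symmetries.ncard := by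
    rw [Set.ncard_pos (Set.toFinite _)]
    exact ⟨1, 1, C.isAut_one⟩
  have h1 := (Nat.pow_le_pow_left (C.card_transforms_mul_le g) e).trans h
  rw [mul_pow] at h1
  exact Nat.le_of_mul_le_mul_right h1 (pow_pos hpos e)

end Circ

end Pool.Agent.J6H7.SM
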